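import Pool.Agent.H70.Ht3

open Pool.Agent.H70.Ht in
theorem Pool.Agent.Results.MP_94b6b1_an.NoHeat.result :
    ∃ (G : Type) (_ : Group G), Countable G ∧ Infinite G ∧ Haagerup G ∧ NoHeat G :=
  ⟨W, inferInstance, inferInstance, inferInstance, haagerup, noheat⟩
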